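import Pool.Agent.Helper19.BL.Std

/-! # Blackadar's question on lifting finite order automorphisms of the dimension group: negative answer

There is a unital AF algebra `A` and an automorphism `α` of order exactly 2 of
`(K_0(A), K_0(A)^+, Σ(A))` such that no *-automorphism `φ` of `A` with `φ² = id` induces `α`. -/

namespace Pool.Agent.Results.MP_9b0829_an.NoLiftOrderTwo

open Helper19.BL

theorem result : ∃ (A : Type) (_ : CStarAlgebra A), IsAF A ∧
    ∃ α : KC A ≃+ KC A, IsScaledOrderAut α ∧ (∀ g, α (α g) = g) ∧ (∃ g, α g ≠ g) ∧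
      ∀ φ : A ≃⋆ₐ[ℂ] A, IsInvol φ → ¬ Induces φ α :=
  main'

end Pool.Agent.Results.MP_9b0829_an.NoLiftOrderTwo
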